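import Pool.Agent.N52.ST.Stm
import Pool.Agent.N303.KQ.Alg

/-!
# CEX: the projection onto the block algebra maps contractions to contractions
-/

set_option autoImplicit false

namespace Pool.Agent.N346.ST.Cex

open Matrix Finset
open scoped ComplexOrder
open Pool.Agent.W661.RC Pool.Agent.W683.RC Pool.Agent.N303.KQ

noncomputable section

variable {d : ℕ}

theorem tr_pow (p : Mt d) (hp : p.IsHermitian) (n : ℕ) :
    tr (p ^ n) = ∑ i, hp.eigenvalues i ^ n := by
  have h1 : p ^ n = Unitary.conjStarAlgAut ℂ _ hp.eigenvectorUnitary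
      (diagonal (fun i => ((hp.eigenvalues i ^ n : ℝ) : ℂ))) := by
    conv_lhs => rw [hp.spectral_theorem]
    rw [← map_pow, diagonal_pow]
    congr 2
    funext i
    simp
  have h2 : Matrix.trace (p ^ n) = ((∑ i, hp.eigenvalues i ^ n : ℝ) : ℂ) := by
    rw [h1, Unitary.conjStarAlgAut_apply, Matrix.trace_mul_comm, ← Matrix.mul_assoc]
    have h3 : (star (hp.eigenvectorUnitary : Matrix (Fin d) (Fin d) ℂ)) *
        (hp.eigenvectorUnitary : Matrix (Fin d) (Fin d) ℂ) = 1 :=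
      Unitary.coe_star_mul_self _
    rw [h3, Matrix.one_mul, Matrix.trace_diagonal]
    push_cast
    rfl
  rw [tr, h2, Complex.ofReal_re]

/-- elementary: sums of powers -/
theorem real_aux {ι : Type} [Fintype ι] (l : ι → ℝ) (h0 : ∀ i, 0 ≤ l i)
    (h : ∀ n : ℕ, ∑ i, l i ^ (2 * n + 3) ≤ ∑ i, l i ^ (2 * n + 2)) (j : ι) : l j ≤ 1 := by
  by_contra hj
  push Not at hj
  -- the divergence
  obtain ⟨n, hn⟩ := pow_unbounded_of_one_lt ((Fintype.card ι : ℝ) / (l j - 1)) hj
  have hj1 : 0 < l j - 1 := by linarith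
  have h1 : (Fintype.card ι : ℝ) < l j ^ n * (l j - 1) := by
    rwa [div_lt_iff₀ hj1] at hn
  have h2 : l j ^ n ≤ l j ^ (2 * n + 2) := pow_le_pow_right₀ hj.le (by omega)
  have h3 : (Fintype.card ι : ℝ) < l j ^ (2 * n + 2) * (l j - 1) :=
    h1.trans_le (mul_le_mul_of_nonneg_right h2 hj1.le)
  have h4 : ∑ i, l i ^ (2 * n + 2) * (l i - 1) ≤ 0 := by
    have h5 : ∑ i, l i ^ (2 * n + 2) * (l i - 1) =
        ∑ i, l i ^ (2 * n + 3) - ∑ i, l i ^ (2 * n + 2) := by
      rw [← sum_sub_distrib]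
      refine sum_congr rfl fun i _ => ?_
      ring
    rw [h5]
    have := h n
    linarith
  have h6 : ∀ i, -1 ≤ l i ^ (2 * n + 2) * (l i - 1) := by
    intro i
    by_cases hi : l i ≤ 1
    · have h7 : l i ^ (2 * n + 2) ≤ 1 := pow_le_one₀ (h0 i) hi
      have h8 : 0 ≤ l i ^ (2 * n + 2) := pow_nonneg (h0 i) _
      nlinarith [h0 i]
    · push Not at hi
      have h8 : 0 ≤ l i ^ (2 * n + 2) := pow_nonneg (h0 i) _
      have : 0 ≤ l i ^ (2 * n + 2) * (l i - 1) := mul_nonneg h8 (by linarith)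
      linarith
  classical
  have h9 : l j ^ (2 * n + 2) * (l j - 1) + ∑ i ∈ univ.erase j, l i ^ (2 * n + 2) * (l i - 1) =
      ∑ i, l i ^ (2 * n + 2) * (l i - 1) :=
    add_sum_erase univ (fun i => l i ^ (2 * n + 2) * (l i - 1)) (mem_univ j)
  have h10 : -((univ.erase j).card : ℝ) ≤ ∑ i ∈ univ.erase j, l i ^ (2 * n + 2) * (l i - 1) := by
    have := Finset.card_nsmul_le_sum (univ.erase j) (fun i => l i ^ (2 * n + 2) * (l i - 1)) (-1)
      (fun i _ => h6 i)
    simpa using this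
  have h11 : ((univ.erase j).card : ℝ) ≤ Fintype.card ι := by
    exact_mod_cast (card_le_card (erase_subset _ _)).trans (le_of_eq card_univ)
  linarith

/-- a matrix of an algebra which is contractive on the algebra is a contraction -/
theorem contr (y : Mt d)
    (h : ∀ n : ℕ, hs (y * (yᴴ * y) ^ (n + 1)) ≤ hs ((yᴴ * y) ^ (n + 1))) : Le (yᴴ * y) 1 := by
  have hp : (yᴴ * y).IsHermitian := Matrix.isHermitian_conjTranspose_mul_self y
  have hps : (yᴴ * y).PosSemidef := Matrix.posSemidef_conjTranspose_mul_self y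
  have hH : ∀ n : ℕ, ((yᴴ * y) ^ n)ᴴ = (yᴴ * y) ^ n := fun n => (hp.pow n).eq
  have key : ∀ i, hp.eigenvalues i ≤ 1 := by
    refine real_aux _ (fun i => hps.eigenvalues_nonneg i) fun n => ?_
    rw [← tr_pow, ← tr_pow]
    have e1 : tr ((yᴴ * y) ^ (2 * n + 2)) = hs ((yᴴ * y) ^ (n + 1)) := by
      rw [hs_eq_tr, hH, ← pow_add]
      congr 2
      ring
    have e2 : tr ((yᴴ * y) ^ (2 * n + 3)) = hs (y * (yᴴ * y) ^ (n + 1)) := by
      rw [hs_eq_tr, Matrix.conjTranspose_mul, hH]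
      have : (yᴴ * y) ^ (n + 1) * yᴴ * (y * (yᴴ * y) ^ (n + 1)) =
          (yᴴ * y) ^ (n + 1) * (yᴴ * y) * (yᴴ * y) ^ (n + 1) := by
        simp only [Matrix.mul_assoc]
      rw [this, ← pow_succ, ← pow_add]
      congr 2
      ring
    rw [e1, e2]
    exact h n
  -- 1 - p is positive
  unfold Le
  have h1 : (1 - yᴴ * y : Mt d) = Unitary.conjStarAlgAut ℂ _ hp.eigenvectorUnitary
      (diagonal (fun i => ((1 - hp.eigenvalues i : ℝ) : ℂ))) := by
    conv_lhs => rw [hp.spectral_theorem]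
    rw [← map_one (Unitary.conjStarAlgAut ℂ _ hp.eigenvectorUnitary), ← map_sub]
    congr 1
    ext i j
    by_cases hij : i = j
    · subst hij
      simp
    · simp [Matrix.diagonal_apply_ne _ hij, Matrix.one_apply_ne hij]
  rw [h1, Unitary.conjStarAlgAut_apply]
  have h2 : (diagonal (fun i => ((1 - hp.eigenvalues i : ℝ) : ℂ)) : Mt d).PosSemidef := by
    rw [Matrix.posSemidef_diagonal_iff]
    intro i
    have h3 : (0 : ℝ) ≤ 1 - hp.eigenvalues i := by linarith [key i]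
    exact_mod_cast h3
  exact h2.mul_mul_conjTranspose_same _

variable {O : Out d}

theorem ip_proj (x : Mt d) {b : Mt d} (hb : b ∈ O.alg) :
    ip b (JJ (Jb O) (kp (Jb O) x)) = ip b x := by
  have h1 : b = JJ (Jb O) (kp (Jb O) b) := (JJ_kp_alg hb).symm
  conv_lhs => rw [h1]
  conv_rhs => rw [h1]
  rw [ip_JJ_JJ onf_Jb]
  conv_rhs => rw [Pool.Agent.N303.KQ.JJ, ip_sum_left]
  refine sum_congr rfl fun y _ => ?_
  rw [ip_smul_left]
  rfl

theorem pow_mem {a : Mt d} (ha : a ∈ O.alg) (n : ℕ) : a ^ (n + 1) ∈ O.alg := by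
  induction n with
  | zero => simpa using ha
  | succ n ih =>
    rw [pow_succ]
    exact alg_mul ih ha

theorem hs_mul_proj_le (x : Mt d) (hx : Le (xᴴ * x) 1) {c : Mt d} (hc : c ∈ O.alg) :
    hs (JJ (Jb O) (kp (Jb O) x) * c) ≤ hs c := by
  set y := JJ (Jb O) (kp (Jb O) x) with hy
  have hym : y ∈ O.alg := JJ_mem _
  have h1 : ip (y * c) (y * c) = ip (y * c) (x * c) := by
    have e1 : ∀ z : Mt d, ip (y * c) (z * c) = ip (y * c * cᴴ) z := by
      intro z
      rw [ip, ip, Matrix.conjTranspose_mul (y * c), Matrix.conjTranspose_conjTranspose,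
        ← Matrix.mul_assoc, Matrix.trace_mul_comm, ← Matrix.mul_assoc]
    rw [e1, e1]
    have := ip_proj x (alg_mul (alg_mul hym hc) (alg_conjTranspose hc))
    rw [← hy] at this
    exact this
  have h2 : hs (y * c) = (ip (y * c) (x * c)).re := by
    rw [← h1, ip_self, Complex.ofReal_re]
  have h3 : 2 * (ip (y * c) (x * c)).re ≤ hs (y * c) + hs (x * c) :=
    two_tr_conj_mul_le (y * c) (x * c)
  have h4 := hs_mul_le hx c
  linarith

theorem main : Pool.Agent.N52.ST.S_CEX := by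
  intro d O x hx
  refine contr _ fun n => ?_
  have hym : JJ (Jb O) (kp (Jb O) x) ∈ O.alg := JJ_mem _
  exact hs_mul_proj_le x hx (pow_mem (alg_mul (alg_conjTranspose hym) hym) n)

end

end Pool.Agent.N346.ST.Cex
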